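import Pool.Agent.N397.HO.Pst

/-!
# The `p`-adic monodromy-weight conjecture for projective hyperkähler varieties over number fields

Let `X` be a projective hyperkähler variety over a number field `K`, of any deformation type, and let
`u` be a place of `K` above `p`. We prove Jannsen's conjecture for `X` over the completion `K_u`, in
all degrees: for every `g` in the Weil group of `K_u` and every `s`, the eigenvalues of `g` on the
graded piece `gr_s` of the monodromy filtration of `H^m_pst(X)` are algebraic numbers all of whose
complex conjugates have absolute value `p ^ ((m + s) v(g) / 2)`. Moreover the monodromy operator of
`H^m_pst(X)` is `ρ_m (N_2)`, where `N_2` is the one of `H²` and `ρ_m` is the action of `so(H²)`.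

This is the `p`-adic counterpart of `MP_855f4c_ag.HyperkaehlerVarieties` (project HK, helper184 and
others), and most of the tools are from there. Idea of the proof. Let `A_m` be the algebra of the
endomorphisms of `H^m` which commute with `so(H²)`.

(1) The global Galois group acts quasi-unipotently on `A_m` for the `p`-adic étale cohomology: by
Chebotarev's theorem it is enough to look at Frobenius elements at the places of degree one and good
reduction, of residue characteristic different from `p`, where weak admissibility of the crystalline
cohomology, the second moments of the slopes and the product formula show that all eigenvalues are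
roots of unity (project HK).

(2) The `p`-adic place: `A_m` is a potentially semistable representation of the decomposition group at
`u`, and it is an iterated extension of representations with finite image. So the Weil group acts on
`D_pst (A_m)`, which is the commutant of `so(H²)` in `End H^m_pst(X)`, quasi-unipotently. The operator
`N_m - ρ_m (N_2)` is in it, and it is an eigenvector of `g` with eigenvalue `p ^ (- v(g))`; so it is zero.

(3) Let `D_m` be the weight operator of `g` on `H^m_pst`, minus `m`, and `D_m = ρ_m (D_2) + T`. Then `T` is
in the center of the commutant. For a spectral projection `z` of `T` for an eigenvalue `x` there is a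
central idempotent `z'` of `A_m` on the étale side of the same rank `n`, which is fixed by an open subgroup of the
global Galois group. The determinant of the image of `z'` is, up to roots of unity, the power
`- m n / 2` of the cyclotomic character (project HK, by the slopes at the places of good reduction). Hence
the mean weight of the image of `z` is `m` and `x = 0`. So `T` is nilpotent.

(4) The conjecture is known for `H²`; it gives an `sl₂`-triple `(Y, D_2, N_2)` in `so(H²)`, and its
image under `ρ_m` proves the conjecture in degree `m`.
-/

set_option autoImplicit false

namespace Pool.Agent.Results.MP_6451f1_ag.HyperkaehlerVarieties

open Pool.Agent.N397.HO Pool.Agent.N184.HK NumberField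

/-- **The `p`-adic monodromy-weight conjecture for projective hyperkähler varieties over number
fields.** Let `X` be a projective hyperkähler variety over the number field `K`, with its `p`-adic étale
cohomology, and `P` the cohomology `H^i_pst(X)` at a place above `p`. For all degrees `i`, all `s`, and all
elements `g` of the Weil group, the eigenvalues of `g` on `gr_s H^i_pst(X)` are algebraic numbers all
of whose complex conjugates have absolute value `p ^ ((i + s) val(g) / 2)`. The monodromy operator of
`H^i_pst(X)` comes from the one of `H²`. -/
theorem result {K : Type} [Field K] [NumberField K] {Ω : Type} [Field Ω] [CharZero Ω]
    [IsAlgClosed Ω] [TopologicalSpace Ω] [IsTopologicalRing Ω] [T2Space Ω] (X : HKVariety K Ω)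
    {p : ℕ} (hp : p.Prime) (P : PstPlace X p) :
    ∀ i ≤ X.d, P.MonodromyWeight i ∧
      ((∃ g, 0 < P.W.val g) → IsImage (P.H.ρ i) (P.M.N 2) (P.M.N i)) :=
  fun _ hi => ⟨pst_main P hp.one_lt hi, fun h => pst_N P hp.one_lt hi h⟩

end Pool.Agent.Results.MP_6451f1_ag.HyperkaehlerVarieties
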