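import Pool.Agent.N184.WM.Descent

/-!
# The p-adic weight-monodromy conjecture for the outer graded pieces

For a smooth proper scheme `X` of dimension `n` over a `p`-adic field `K`, every degree `m` and every
element `g` of the Weil group of `K`, the assertion of the conjecture holds for the graded pieces
`gr_s` of the monodromy filtration of `H^m_pst(X)` with `|s| ≥ min (m, 2 n - m) - 2`.
-/

namespace Pool.Agent.Results.MP_6451f1_ag.OuterWeights

universe u v

open Module Pool.Agent.Y143 Pool.Agent.X302.MW Pool.Agent.N184.WM

variable {Ω : Type u} [Field Ω] [CharZero Ω] [IsAlgClosed Ω] {Γ : Type} {n q : ℕ}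

/-- Let `X` be a smooth proper scheme, purely of dimension `n`, over the `p`-adic field `K`, `m` a
natural number, and `D.V = H^m_pst(X)` with coefficients in an algebraically closed field `Ω`
containing `P_0`, with the actions of the Weil group `D.G` of `K` and of the monodromy. Let `Y` be a
projective strictly semistable alteration of `X` over a finite extension of `K` with residue field
of `q = p ^ f` elements, given by the `p`-adic weight spectral sequence and the crystalline
cohomology of its strata; `D.V` is a direct summand of `H^m_pst(Y)` (`hS`).

If `|s| ≥ min (m, 2 n - m) - 2`, then for every `g` in the Weil group of `K`, every eigenvalue of `g`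
on the graded piece `gr_s` of the monodromy filtration of `D.V` is an algebraic number all of whose
complex conjugates have absolute value `p ^ ((m + s) val(g) / 2)`. -/
theorem result (Y : Degeneration.{u, v} Ω Γ n q) (A : DivisorClasses Y.toSpecialFibre)
    (m p f : ℕ) (hq : q = p ^ f) (hf : 0 < f) (hN : IsTwisted q (Y.actV m Y.frob) (Y.N m))
    (D : WeilModule.{u, v} Ω) (hD : D.IsTwistedBy p) (pull : D.V →ₗ[Ω] Y.V m)
    (push : Y.V m →ₗ[Ω] D.V) (hS : IsSummand D Y.toSemistableModel m f pull push) (s : ℤ)
    (hs : (m : ℤ) - 2 ≤ |s| ∨ 2 * (n : ℤ) - m - 2 ≤ |s|) (g : D.G) :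
    D.WeightMonodromyAt m p s g :=
  outer_summand Y A m 1 p f hq hf (fun a w χ h1 h2 _ _ => by omega) hN D hD pull push hS s
    (by push_cast; omega) g

end Pool.Agent.Results.MP_6451f1_ag.OuterWeights
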