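import Pool.Agent.N184.WM.ThreeMax

/-!
# The p-adic weight-monodromy conjecture for threefolds with `N ^ 2` of maximal rank on `H^3`

For example, for Calabi-Yau threefolds (with `H^1(O) = H^2(O) = 0`) with `N ^ 2 ≠ 0` on `H^3`.
-/

namespace Pool.Agent.Results.MP_6451f1_ag.ThreefoldsMaximalNSquared

universe u v

open Module Pool.Agent.Y143 Pool.Agent.X302.MW Pool.Agent.N184.WM

/-- **The p-adic weight-monodromy conjecture for threefolds with `N ^ 2` of maximal rank.** Let
`X_K` be a smooth projective threefold over a `p`-adic field `K` with a projective strictly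
semistable model `X` over the ring of integers, whose residue field has `q` elements, given by the
crystalline cohomology of the strata and the `p`-adic weight spectral sequence of `H^k_pst`. Let
`h = h^(3, 0)(X_K)`. Suppose that the rank of `N ^ 2` on `H^3` is at least `2 h`. Then every `H^k` is
mw pure: all eigenvalues of the geometric Frobenius on the graded piece `gr_s` of the monodromy
filtration are `q`-Weil numbers of weight `k + s`.

The hypotheses are the following.

* `hI`, `hC0`, `hC1` (known, Katz-Messing): the Frobenius eigenvalues on the strata are algebraic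
  integers, and the characteristic polynomials on `H^2(Y^(1))` and `H^2(Y^(2))` are rational.
* `h2`: the non-Tate eigenvalues on the part of weight two of `H^2` of the generic fibre are stable
  under conjugation, with multiplicities; for example because there are none, if `h^(2, 0) = 0`.
* `hNH` (known): the Newton polygon of `H^3` lies above the Hodge polygon.
* `hrk`: the rank of `N ^ 2` on `H^3` is at least `2 h`.
* `hT`: the Tate conjecture for divisors on the components of the special fibre. -/
theorem result {Ω : Type u} [Field Ω] [CharZero Ω] [IsAlgClosed Ω] {Γ : Type} {q : ℕ}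
    (hq : IsPrimePow q) (X : Degeneration.{u, v} Ω Γ 3 q) (A : DivisorClasses X.toSpecialFibre)
    (hI : HasIntegralFrobenius X.toSpecialFibre)
    (hC0 : SameFrobenius X.toSpecialFibre X.toSpecialFibre 0 2)
    (hC1 : SameFrobenius X.toSpecialFibre X.toSpecialFibre 1 2)
    (h2 : SameOnH2 X.toSpecialFibre X.toSpecialFibre) (R : ValuationSubring Ω) (val : Ω → ℝ)
    (hv : IsValFor q R val) (h : ℕ) (hNH : NewtonAbove val (X.actV 3 X.frob) h)
    (hrk : 2 * h ≤ rankPow (X.N 3) 2) (hT : A.TateConj 0) (k : ℕ) :
    IsMWPure q k (X.actV k X.frob) (X.N k) :=
  mw_three_max X A X A hq hI hI hC0 hC1 h2 R val hv h hNH hrk hT k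

end Pool.Agent.Results.MP_6451f1_ag.ThreefoldsMaximalNSquared
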